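import Pool.Agent.H12.KTH.Stmts

/-!
# Rows TLN (two lines) and ALL (entropy of the family of the lines 1 given `O`)
-/

set_option autoImplicit false

namespace Pool.Agent.H64.KTH

open Finset Real
open Pool.Agent.H49.Ent Pool.Agent.H32.Dense
open Pool.KTH

variable {d J : ℕ}

lemma one_add_log_le (δ : ℝ) (hδ : 0 < δ) : ∃ J₀ : ℕ, ∀ J : ℕ, J₀ ≤ J →
    1 + Real.log ((J : ℝ) + 2) ≤ δ * J := by
  refine ⟨max 2 ⌈8 / δ ^ 2⌉₊, fun J hJ => ?_⟩
  have h2 : (2 : ℝ) ≤ J := by exact_mod_cast (le_max_left _ _).trans hJ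
  have h3 : 8 / δ ^ 2 ≤ (J : ℝ) := by
    refine (Nat.le_ceil _).trans ?_
    exact_mod_cast (le_max_right _ _).trans hJ
  rw [div_le_iff₀ (by positivity)] at h3
  set s : ℝ := Real.sqrt ((J : ℝ) + 2) with hs
  have hs0 : 0 < s := Real.sqrt_pos.mpr (by linarith)
  have hss : s ^ 2 = (J : ℝ) + 2 := Real.sq_sqrt (by linarith)
  have h4 : Real.log ((J : ℝ) + 2) = 2 * Real.log s := by
    rw [← hss, Real.log_pow]
    norm_num
  have h5 : Real.log s ≤ s - 1 := Real.log_le_sub_one_of_pos hs0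
  have h6 : 2 * s ≤ δ * J := by
    have h7 : (2 * s) ^ 2 ≤ (δ * J) ^ 2 := by
      have : (2 * s) ^ 2 = 4 * ((J : ℝ) + 2) := by rw [mul_pow, hss]; ring
      rw [this, mul_pow]
      nlinarith
    exact abs_le_abs_of_nonneg (by positivity) (sq_le_sq.mp h7) |> fun h => by
      simpa [abs_of_nonneg (show (0 : ℝ) ≤ 2 * s by positivity),
        abs_of_nonneg (show (0 : ℝ) ≤ δ * J by positivity)] using h
  rw [h4]
  linarith

lemma er_small {C : ℝ} (hC : 0 ≤ C) {ε : ℝ} (hε : 0 < ε) : ∃ θ : ℝ, 0 < θ ∧ ∃ J₀ : ℕ,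
    ∀ J : ℕ, J₀ ≤ J → ∀ e : ℝ, e ≤ θ * lm J → C * er J e ≤ ε * lm J := by
  have hl : 0 < Real.log 2 := Real.log_pos (by norm_num)
  obtain ⟨J₀, hJ₀⟩ := one_add_log_le (ε * Real.log 2 / (2 * (C + 1))) (by positivity)
  refine ⟨ε / (2 * (C + 1)), by positivity, J₀, fun J hJ e he => ?_⟩
  have h := hJ₀ J hJ
  have h1 : er J e ≤ ε / (2 * (C + 1)) * lm J + ε * Real.log 2 / (2 * (C + 1)) * J := by
    unfold er
    linarith
  have h2 : ε / (2 * (C + 1)) * lm J + ε * Real.log 2 / (2 * (C + 1)) * J =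
      ε * lm J / (C + 1) := by
    unfold lm
    field_simp
    ring
  rw [h2] at h1
  have h3 : 0 ≤ ε * lm J := by unfold lm; positivity
  calc C * er J e ≤ C * (ε * lm J / (C + 1)) := mul_le_mul_of_nonneg_left h1 hC
    _ = C / (C + 1) * (ε * lm J) := by ring
    _ ≤ 1 * (ε * lm J) := by
        refine mul_le_mul_of_nonneg_right ?_ h3
        rw [div_le_one (by positivity)]
        linarith
    _ = ε * lm J := one_mul _

lemma le_er (J : ℕ) (e : ℝ) : e + 1 ≤ er J e := by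
  unfold er
  have : 0 ≤ Real.log ((J : ℝ) + 2) := Real.log_nonneg (by linarith [Nat.cast_nonneg (α := ℝ) J])
  linarith

end Pool.Agent.H64.KTH

namespace Pool.KTH

open Finset Real
open Pool.Agent.H49.Ent Pool.Agent.H32.Dense
open Pool.Agent.H64.KTH

theorem tln (h1 : SEPStmt) (h2 : FCKStmt) : TLNStmt := by
  intro d hd
  obtain ⟨C, hC, hS⟩ := (h1 d hd).1
  refine ⟨⟨C + 1, by linarith, fun J F L sb e hF => ?_⟩, fun ε hε => ?_⟩
  · have a1 : CH F.q (fun w => ((F.v₀ w, F.v₁ w), F.t w)) F.Z ≤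
        CH F.q (fun w => (F.t w, F.v01 w)) F.Z := by
      refine CH_mono_left F.hq fun ω ω' _ _ h => ?_
      simp only [Prod.mk.injEq, Cf.v01] at h ⊢
      tauto
    rw [CH_chain F.hq F.t F.v01] at a1
    have a2 := hS J F L sb e hF
    have a3 := hF.cp
    have a4 := le_er J e
    simp only at a2 ⊢
    have a5 := hF.e0
    have : (C + 1) * er J e = C * er J e + er J e := by ring
    linarith
  · obtain ⟨θ₁, hθ₁, J₁, h₁⟩ := h2 d hd (ε / 2) (by positivity)
    obtain ⟨θ₂, hθ₂, J₂, h₂⟩ := er_small (C := C + 1) (by linarith) (ε := ε / 2) (by positivity)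
    refine ⟨min θ₁ θ₂, lt_min hθ₁ hθ₂, max J₁ J₂, fun J hJ F L sb e he hF => ?_⟩
    have hlm : 0 ≤ lm J := by unfold lm; positivity
    have he1 : e ≤ θ₁ * lm J := he.trans (mul_le_mul_of_nonneg_right (min_le_left _ _) hlm)
    have he2 : e ≤ θ₂ * lm J := he.trans (mul_le_mul_of_nonneg_right (min_le_right _ _) hlm)
    have b1 := h₂ J ((le_max_right _ _).trans hJ) e he2
    have b2 := h₁ J ((le_max_left _ _).trans hJ) F.Ω F.ζ F.q F.Z F.v₁ F.v₀ F.u₁ F.u₀ F.t F.s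
      F.hq F.h1 (by simpa using F.hv₁) (by simpa using F.hv₀) F.hu₁ F.hu₀
      (by simpa using F.ht) (by simpa using F.hs) (fun w hw => (F.cross01 w hw).symm) (by
        have c1 := hF.cs
        have c2 : CH F.q F.s (fun w => ((F.v₀ w, F.v₁ w), F.t w, F.Z w)) ≤
            CH F.q F.s (fun w => ((F.v₁ w, F.v₀ w), F.t w, F.Z w)) := by
          refine CH_mono_cond F.hq fun ω ω' _ _ h => ?_
          simp only [Prod.mk.injEq] at h ⊢
          tauto
        linarith)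
    have b3 := hS J F L sb e hF
    simp only at b3
    have a3 := hF.cl
    have a4 := le_er J e
    have b4 : (C + 1) * er J e = C * er J e + er J e := by ring
    -- the chain rule
    have c1 : CH F.q (fun w => ((F.v₀ w, F.v₁ w, F.v₂ w), F.t w, F.s w)) F.Z ≤
        CH F.q (fun w => (F.t w, F.v₀ w, F.s w, F.v12 w)) F.Z := by
      refine CH_mono_left F.hq fun ω ω' _ _ h => ?_
      simp only [Prod.mk.injEq, Cf.v12] at h ⊢
      tauto
    rw [CH_chain F.hq F.t (fun w => (F.v₀ w, F.s w, F.v12 w)),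
      CH_chain F.hq F.v₀ (fun w => (F.s w, F.v12 w)), CH_chain F.hq F.s F.v12] at c1
    have c2 : CH F.q F.s (fun w => (F.v12 w, F.Z w)) ≤ F.qs := by
      refine CH_mono_cond F.hq fun ω ω' _ _ h => ?_
      simp only [Prod.mk.injEq, Cf.v12] at h ⊢
      tauto
    have c3 : CH F.q F.t (fun w => ((F.v₀ w, F.s w, F.v12 w), F.Z w)) ≤
        CH F.q F.t (fun w => (F.v01 w, F.Z w)) := by
      refine CH_mono_cond F.hq fun ω ω' _ _ h => ?_
      simp only [Prod.mk.injEq, Cf.v12, Cf.v01] at h ⊢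
      tauto
    have c4 : CH F.q F.v₀ (fun w => ((F.s w, F.v12 w), F.Z w)) ≤
        CH F.q F.v₀ (fun w => (F.v₁ w, pp J F.u₀ F.v₀ F.s w, F.Z w)) := by
      refine CH_mono_cond F.hq fun ω ω' a b h => ?_
      simp only [Prod.mk.injEq, Cf.v12] at h ⊢
      obtain ⟨⟨h1, h2, h3⟩, h4⟩ := h
      refine ⟨h2, ?_, h4⟩
      unfold pp
      rw [F.cross02 ω a, F.cross02 ω' b, h1, h3, F.hu₂ ω ω' a b (by simp only [h3, h4])]
    simp only
    linarith

theorem all (h1 : TLNStmt) (h2 : PALStmt) : ALLStmt := by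
  intro d hd ε hε
  obtain ⟨C, hC, hT⟩ := (h1 d hd).1
  obtain ⟨C', hC', hP⟩ := (h2 d hd).1
  obtain ⟨θ, hθ, J₀, h⟩ := er_small (C := C + C') (by linarith) hε
  refine ⟨θ, hθ, J₀, fun J hJ F L sb e he hF => ?_⟩
  have a1 := hT J F L sb e hF
  have a2 := hP J F L sb e hF
  have a3 := h J hJ e he
  simp only at a1 a2 ⊢
  have e1 : CH F.q (fun w => (F.O w, F.v01 w)) F.Z =
      CH F.q (fun w => (F.v₀ w, F.v₁ w, F.O w)) F.Z := by
    refine CH_congr F.hq (fun ω ω' _ _ h => ?_) (fun ω ω' _ _ h => ?_)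
      (fun ω ω' _ _ h => h) (fun ω ω' _ _ h => h)
    · simp only [Prod.mk.injEq, Cf.v01] at h ⊢
      tauto
    · simp only [Prod.mk.injEq, Cf.v01] at h ⊢
      tauto
  rw [CH_chain F.hq F.O F.v01, CH_chain F.hq F.v₀ (fun w => (F.v₁ w, F.O w)),
    CH_chain F.hq F.v₁ F.O] at e1
  have e2 : CH F.q F.O (fun w => (F.v01 w, F.t w, F.Z w)) ≤
      CH F.q F.O (fun w => (F.v01 w, F.Z w)) := by
    refine CH_mono_cond F.hq fun ω ω' _ _ h => ?_
    simp only [Prod.mk.injEq] at h ⊢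
    tauto
  have e3 : CH F.q F.v₀ (fun w => ((F.v₁ w, F.O w), F.Z w)) = F.et₁ := by
    refine CH_congr F.hq (fun ω ω' _ _ h => ?_) (fun ω ω' _ _ h => ?_)
      (fun ω ω' _ _ h => ?_) (fun ω ω' _ _ h => ?_)
    all_goals
      simp only [Prod.mk.injEq] at h ⊢
      tauto
  have e4 : CH F.q F.v₁ (fun w => (F.O w, F.Z w)) = F.FL.L := rfl
  have e5 : CH F.q F.O F.Z = F.xh := rfl
  have e6 : (C + C') * er J e = C * er J e + C' * er J e := by ring
  linarith

end Pool.KTH
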